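import Pool.Agent.U588.LBP.Stm

set_option autoImplicit false

/-! Project LBP, package DOM (helper925): the syzygies commute with directed colimits. -/

namespace Pool.Agent.U925.LBP

open Pool.Agent.U588.LBP

theorem map_comp_eq {A B C M : Type} [AddCommMonoid M] (f : A → B) (g : B → C) (k : A → C)
    (h : ∀ x, g (f x) = k x) (v : A →₀ M) :
    Finsupp.mapDomain g (Finsupp.mapDomain f v) = Finsupp.mapDomain k v := by
  rw [← Finsupp.mapDomain_comp]
  congr 1
  funext x
  exact h x

theorem step (h : S_DFR) {R : Type} [Ring R] {J : Type} [Preorder J] {N : J → ModuleCat.{0} R}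
    {L : ModuleCat.{0} R} {t : ∀ i j, i ≤ j → (N i →ₗ[R] N j)} {l : ∀ i, N i →ₗ[R] L}
    (hD : Dir N L t l) :
    Dir (fun i => ModuleCat.of R (LinearMap.ker (cov R (N i))))
      (ModuleCat.of R (LinearMap.ker (cov R L))) (fun i j h => kf (t i j h)) (fun i => kf (l i)) := by
  refine ⟨hD.ne, hD.dir, ?_, ?_, ?_, ?_⟩
  · intro i j k h1 h2 x
    apply Subtype.ext
    exact map_comp_eq (t i j h1) (t j k h2) (t i k (h1.trans h2)) (fun y => hD.comp i j k h1 h2 y) x.1
  · intro i j h1 x
    apply Subtype.ext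
    exact map_comp_eq (t i j h1) (l j) (l i) (fun y => hD.compl i j h1 y) x.1
  · rintro ⟨v, hv⟩
    have hv' : cov R L v = 0 := hv
    obtain ⟨i, w, hw⟩ := (h R J N L t l hD R).1 v
    have h1 : l i (cov R (N i) w) = 0 := by
      rw [← cov_map]
      change cov R L (Finsupp.mapDomain (l i) w) = 0
      rw [hw, hv']
    obtain ⟨j, hij, hj⟩ := hD.inj i _ h1
    have h2 : cov R (N j) (Finsupp.mapDomain (t i j hij) w) = 0 := by
      change cov R (N j) (Finsupp.lmapDomain R R (t i j hij) w) = 0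
      rw [cov_map, hj]
    refine ⟨j, ⟨Finsupp.mapDomain (t i j hij) w, h2⟩, Subtype.ext ?_⟩
    change Finsupp.mapDomain (l j) (Finsupp.mapDomain (t i j hij) w) = v
    rw [map_comp_eq (t i j hij) (l j) (l i) (fun y => hD.compl i j hij y) w, hw]
  · rintro i ⟨w, hw⟩ h0
    have h1 : Finsupp.mapDomain (l i) w = 0 := congrArg Subtype.val h0
    obtain ⟨j, hij, hj⟩ := (h R J N L t l hD R).2 i w h1
    exact ⟨j, hij, Subtype.ext hj⟩

theorem t_DOM (h : S_DFR) : S_DOM := by
  intro R _ J _ N L t l hD n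
  induction n with
  | zero => exact hD
  | succ n ih => exact step h ih

end Pool.Agent.U925.LBP
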